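import Mathlib
import Pool.Agent.MP_55c352_al.Main

/-!
Negative answer to the question of Chen and Labbe: there is a Lorentzian geometric Coxeter system
with a space-like limit direction that arises through powers of no element of the group.
The witness is the `(2, 3, ∞)` triangle group acting on real binary quadratic forms.
-/

open scoped LinearAlgebra.Projectivization

namespace Pool.Agent.Results.MP_55c352_al.Counterexample

open Pool.Agent.MP_55c352_al

theorem result :
    ∃ (n : ℕ) (M : CoxeterMatrix (Fin n)) (B : Matrix (Fin n) (Fin n) ℝ)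
      (ρ : M.Group →* ((Fin n → ℝ) ≃ₗ[ℝ] (Fin n → ℝ))),
      IsCoxeterForm M B ∧ IsLorentzian B ∧ IsGeometricRep M B ρ ∧
        ∃ x : ℙ ℝ (Fin n → ℝ), IsSpaceLike B x ∧ IsLimitDirection ρ x ∧
          ∀ w : M.Group, ¬ ArisesThroughPowers ρ w x := by
  obtain ⟨s, hs⟩ := exists_limit_direction
  refine ⟨3, M0, B0, rho, isCoxeterForm, isLorentzian, isGeometricRep, _, ?_, hs,
    not_arises s⟩
  obtain ⟨a, ha⟩ := Projectivization.exists_smul_eq_mk_rep ℝ (vec 0 1 s) (vec01_ne s)
  rw [IsSpaceLike, ← ha, Units.smul_def, vec_smul, bil_vec]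
  have := a.ne_zero
  simp only [mul_zero, zero_mul, sub_zero, mul_one]
  positivity

end Pool.Agent.Results.MP_55c352_al.Counterexample
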